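import Pool.Agent.H808.Cases

/-!
# Generating mapping class groups by three elements of order 4, and by three elements of order 5

`Pool.Agent.H808.MCG g` (file `Pool/Agent/H808/SurfDefs.lean`) is the mapping class group of the
closed oriented surface of genus `g`, realised through the Dehn-Nielsen-Baer theorem inside
`Out (π₁)`, as the subgroup generated by the (outer classes of the) Lickorish Dehn twists
about the curves `a_1, …, a_g`, `b_1, …, b_g`, `c_1, …, c_{g-1}`.

Question Q2 of the problem asks, for `k = 4` and for `k = 5`, whether there is `g₀` such that for
all `g ≥ g₀` the mapping class group is generated by three elements of order `k`. The theorem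
answers both parts positively, with `g₀ = 24` for `k = 4` and `g₀ = 34` for `k = 5`.
-/

namespace Pool.Agent.Results.MP_24877f_gt.ThreeOfOrderFourOrFive

open Pool.Agent.H808

/-- For every `g ≥ 24` the mapping class group of the closed oriented surface of genus `g` is
generated by three elements of order `4`, and for every `g ≥ 34` it is generated by three elements
of order `5`. -/
theorem result :
    (∀ g : ℕ, 24 ≤ g → GenByThree (MCG g) 4) ∧ (∀ g : ℕ, 34 ≤ g → GenByThree (MCG g) 5) :=
  ⟨fun g hg => gen4 g hg, fun g hg => gen5 g hg⟩

end Pool.Agent.Results.MP_24877f_gt.ThreeOfOrderFourOrFive
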